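import Pool.Agent.Lib.MP_efa98f_al.NT

open scoped Pointwise

namespace Pool.Agent.Results.MP_efa98f_al.LengthSix

/-- `U(n,ℤ)`: the upper unitriangular integer matrices (ones on the diagonal, zeros below it),
as a subset of `SL(n,ℤ)`. -/
def upperUni (n : ℕ) : Set (Matrix.SpecialLinearGroup (Fin n) ℤ) :=
  {g | (∀ i, g i i = 1) ∧ ∀ i j, j < i → g i j = 0}

/-- `U⁻(n,ℤ)`: the lower unitriangular integer matrices (ones on the diagonal, zeros above it),
as a subset of `SL(n,ℤ)`. -/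
def lowerUni (n : ℕ) : Set (Matrix.SpecialLinearGroup (Fin n) ℤ) :=
  {g | (∀ i, g i i = 1) ∧ ∀ i j, i < j → g i j = 0}

/-- For every `n ≥ 6` one has `SL(n,ℤ) = (U(n,ℤ) U⁻(n,ℤ))³`. -/
theorem result : ∀ n : ℕ, 6 ≤ n →
    upperUni n * lowerUni n * upperUni n * lowerUni n * upperUni n * lowerUni n = Set.univ := by
  intro n hn
  refine Set.eq_univ_of_forall fun g => ?_
  obtain ⟨u1, hu1, l1, hl1, u2, hu2, l2, hl2, u3, hu3, l3, hl3, rfl⟩ :=
    Pool.Agent.Lib.MP_efa98f_al.six_all n hn g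
  exact Set.mul_mem_mul (Set.mul_mem_mul (Set.mul_mem_mul (Set.mul_mem_mul
    (Set.mul_mem_mul hu1 hl1) hu2) hl2) hu3) hl3

end Pool.Agent.Results.MP_efa98f_al.LengthSix
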